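import Pool.Agent.Lib.MP_c2fecd_an.Free

open Set Filter Topology

namespace Pool.Agent.Lib.MP_c2fecd_an

variable {M : Type*} [MetricSpace M] {X : Type*} [NormedAddCommGroup X] [NormedSpace ℝ X]

lemma IsFree.norm_le {x0 : M} {δ : M → X} (h : IsFree x0 δ) (y : M) : ‖δ y‖ ≤ dist y x0 := by
  have := h.lip y x0
  rwa [h.zero, sub_zero] at this

/-- Separation: a functional with the right bounds. -/
lemma IsFree.separate {x0 : M} {δ : M → X} (h : IsFree x0 δ) {R C ε : ℝ} (hR : 0 < R)
    (hC : 0 < C) (hε : 0 < ε) {x : X} (hx : x ∉ WW x0 δ R C ε) :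
    ∃ (f : X →L[ℝ] ℝ) (t : ℝ), 0 < t ∧ f x = C * t + ε * ‖f‖ ∧
      ∀ y, |f (δ y)| ≤ t * (R + dist y x0) := by
  obtain ⟨f, hf⟩ := geometric_hahn_banach_open_point (WW_convex x0 δ R C ε) (WW_open _ _ _ _ _) hx
  have key : ∀ l, wt (fun y => R + dist y x0) l ≤ C → f (comb δ l) + ε * ‖f‖ ≤ f x := by
    intro l hl
    have h1 : ∀ r : X, ‖r‖ < ε → f r < f x - f (comb δ l) := by
      intro r hr
      have := hf (comb δ l + r) ⟨l, hl, by simpa using hr⟩
      rw [map_add] at this
      linarith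
    have h0 : 0 < f x - f (comb δ l) := by simpa using h1 0 (by simpa using hε)
    have h2 : ‖f‖ ≤ (f x - f (comb δ l)) / ε := by
      apply ContinuousLinearMap.opNorm_le_of_ball hε (by positivity)
      intro r hr
      rcases eq_or_ne r 0 with rfl | hr0
      · simp
      have hn : 0 < ‖r‖ := norm_pos_iff.mpr hr0
      rw [Real.norm_eq_abs]
      apply le_of_forall_lt_imp_le_of_dense
      intro c hc
      by_cases hc0 : c ≤ 0
      · exact hc0.trans (by positivity)
      push Not at hc0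
      have habs : 0 < |f r| := hc0.trans hc
      set s := ε / ‖r‖ * (c / |f r|) with hs
      have hs0 : 0 < s := by positivity
      have hsn : s * ‖r‖ < ε := by
        have : s * ‖r‖ = ε * (c / |f r|) := by rw [hs]; field_simp
        rw [this]
        have : c / |f r| < 1 := (div_lt_one habs).mpr hc
        nlinarith
      have a1 := h1 (s • r) (by rwa [norm_smul, Real.norm_eq_abs, abs_of_pos hs0])
      have a2 := h1 (-(s • r)) (by rwa [norm_neg, norm_smul, Real.norm_eq_abs, abs_of_pos hs0])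
      rw [map_neg, map_smul, smul_eq_mul] at a2
      rw [map_smul, smul_eq_mul] at a1
      have a3 : s * |f r| < f x - f (comb δ l) := by
        rcases abs_cases (f r) with k | k <;> rw [k.1] <;> linarith
      have a4 : s * |f r| = ε * c / ‖r‖ := by rw [hs]; field_simp
      rw [a4, div_lt_iff₀ hn] at a3
      rw [div_mul_eq_mul_div, le_div_iff₀ hε]
      linarith
    rw [le_div_iff₀ hε] at h2
    linarith
  have hb : ∀ y, |f (δ y)| ≤ (f x - ε * ‖f‖) / C * (R + dist y x0) := by
    intro y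
    have hw : 0 < R + dist y x0 := by positivity
    have a1 := key [(C / (R + dist y x0), y)] (by
      simp only [wt_cons, wt_nil, add_zero]
      rw [abs_of_pos (by positivity)]
      exact le_of_eq (by field_simp))
    have a2 := key [(-(C / (R + dist y x0)), y)] (by
      simp only [wt_cons, wt_nil, add_zero]
      rw [abs_neg, abs_of_pos (by positivity)]
      exact le_of_eq (by field_simp))
    simp only [comb_cons, comb_nil, add_zero, map_smul, smul_eq_mul] at a1 a2
    have a3 : C / (R + dist y x0) * |f (δ y)| ≤ f x - ε * ‖f‖ := by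
      rcases abs_cases (f (δ y)) with k | k <;> rw [k.1] <;> linarith
    rw [div_mul_eq_mul_div, div_le_iff₀ hw] at a3
    rw [div_mul_eq_mul_div, le_div_iff₀ hC]
    linarith
  have h0 := key [] (by simpa using hC.le)
  simp only [comb_nil, map_zero, zero_add] at h0
  refine ⟨f, (f x - ε * ‖f‖) / C, ?_, by field_simp; ring, hb⟩
  rcases h0.lt_or_eq with k | k
  · exact div_pos (by linarith) hC
  · exfalso
    have hz : ∀ y, |f (δ y)| ≤ 0 := by
      intro y
      have := hb y
      rw [← k] at this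
      simpa using this
    have hfx : 0 < f x := by simpa using hf 0 (WW_ball x0 δ R hC.le ε (Metric.mem_ball_self hε))
    obtain ⟨l, hl⟩ := h.approx x hε
    have a1 := apply_comb_le f hz l
    have a2 : wt (fun _ : M => (0 : ℝ)) l = 0 := by
      have := wt_lin (fun _ : M => (0 : ℝ)) (fun _ => 0) 0 0 l
      simpa using this
    have a3 := f.le_opNorm (x - comb δ l)
    rw [Real.norm_eq_abs, map_sub] at a3
    have a4 : 0 < ‖f‖ := by
      by_contra hc
      have : ‖f‖ = 0 := le_antisymm (not_lt.mp hc) (norm_nonneg _)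
      rw [this] at k
      linarith
    have a5 := le_abs_self (f x - f (comb δ l))
    nlinarith

lemma IsFree.slice {x0 : M} {δ : M → X} (h : IsFree x0 δ) {R C ε : ℝ} (hR : 0 < R)
    (hε : 0 < ε) {x : X} (hx0 : x ≠ 0) (hC : 2 * ‖x‖ + ε ≤ C)
    (hx : x ∉ WW x0 δ R (C - ε / 2) ε) :
    ∃ (f : X →L[ℝ] ℝ) (H : Finset (X →L[ℝ] ℝ)), 1 < f x ∧
      SliceProp (WW x0 δ R C ε) (10 * ε) f H := by
  classical
  have hn : 0 < ‖x‖ := norm_pos_iff.mpr hx0
  obtain ⟨f, t, ht, hfx, hb⟩ := h.separate hR (by linarith) hε hx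
  set L := ‖f‖ with hL
  have hL0 : 0 ≤ L := norm_nonneg _
  have htL : 2 * t ≤ L := by
    have a1 := apply_le_of_norm f (le_refl L) (le_refl ‖x‖)
    have a2 := le_abs_self (f x)
    have a3 : 2 * ‖x‖ * t ≤ (C - ε / 2) * t := by gcongr; linarith
    have a4 : 0 ≤ ε * L := by positivity
    have a5 : (2 * t) * ‖x‖ ≤ L * ‖x‖ := by linarith
    exact le_of_mul_le_mul_right a5 hn
  have hLpos : 0 < L := by linarith
  obtain ⟨l, hl⟩ := h.approx x (show 0 < ε * t / (4 * L) by positivity)
  let S : Set M := insert x0 (Prod.snd '' {p | p ∈ l})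
  have hS : S.Finite := ((List.finite_toSet l).image _).insert _
  have hSne : S.Nonempty := ⟨x0, mem_insert _ _⟩
  choose π hπ1 hπ2 using fun y => hS.isCompact.exists_infDist_eq_dist hSne y
  have hd : ∀ y, Metric.infDist y S ≤ dist y x0 := fun y =>
    Metric.infDist_le_dist_of_mem (mem_insert _ _)
  let G : M → ℝ := fun y => max (t * (R + dist y x0) - (L - t) * Metric.infDist y S) 0
  obtain ⟨φ, h1, h2, h3⟩ := h.trunc f (le_refl L) (G := G) (fun y => le_max_right _ _) (by
    intro a b
    refine (abs_max_sub_max_le_abs _ _ _).trans ?_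
    have a1 : |dist a x0 - dist b x0| ≤ dist a b := abs_dist_sub_le a b x0
    have a2 : |Metric.infDist a S - Metric.infDist b S| ≤ dist a b := by
      have := (Metric.lipschitz_infDist_pt S).dist_le_mul a b
      simpa [Real.dist_eq] using this
    have e : t * (R + dist a x0) - (L - t) * Metric.infDist a S -
        (t * (R + dist b x0) - (L - t) * Metric.infDist b S) =
        t * (dist a x0 - dist b x0) - (L - t) * (Metric.infDist a S - Metric.infDist b S) := by
      ring
    rw [e]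
    refine (abs_sub _ _).trans ?_
    rw [abs_mul, abs_mul, abs_of_pos ht, abs_of_nonneg (show 0 ≤ L - t by linarith)]
    have b1 := mul_le_mul_of_nonneg_left a1 ht.le
    have b2 := mul_le_mul_of_nonneg_left a2 (show 0 ≤ L - t by linarith)
    linarith)
  have h4 : φ (comb δ l) = f (comb δ l) := by
    apply apply_comb_congr
    intro p hp
    apply h3
    refine (hb _).trans (le_trans ?_ (le_max_left _ _))
    have : Metric.infDist p.2 S = 0 :=
      Metric.infDist_zero_of_mem (mem_insert_of_mem _ ⟨p, hp, rfl⟩)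
    rw [this]; simp
  set a0 := (C - ε) * t + ε * L with ha0
  have ha0pos : 0 < a0 := by
    have : 0 < (C - ε) * t := mul_pos (by linarith) ht
    have : 0 ≤ ε * L := by positivity
    linarith
  have h5 : a0 < φ x := by
    have a1 := apply_le_of_norm φ h1 (le_refl ‖x - comb δ l‖)
    have a2 := apply_le_of_norm f (le_refl L) (le_refl ‖x - comb δ l‖)
    rw [map_sub, abs_le] at a1 a2
    rw [lt_div_iff₀ (by positivity)] at hl
    nlinarith
  have hG : ∀ y, G y ≤ t * (R + dist y x0) + (-t) * Metric.infDist y S := by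
    intro y
    have a1 := hd y
    have a2 : 0 ≤ Metric.infDist y S := Metric.infDist_nonneg
    apply max_le
    · nlinarith
    · nlinarith
  let V : Submodule ℝ X := Submodule.span ℝ (δ '' S)
  have : FiniteDimensional ℝ V := FiniteDimensional.span_of_finite ℝ (hS.image δ)
  have close : ∀ a ∈ WW x0 δ R C ε, a0 < φ a →
      ∃ a' ∈ V, ‖a - a'‖ ≤ 2 * ε ∧ ‖a'‖ ≤ C + 3 * ε := by
    rintro a ⟨k, hk1, hk2⟩ ha
    have a1 := apply_comb_le φ (fun y => (h2 y).trans (hG y)) k
    rw [wt_lin (fun y => R + dist y x0) (fun y => Metric.infDist y S)] at a1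
    have a2 := apply_le_of_norm φ h1 hk2.le
    rw [map_sub, abs_le] at a2
    have a3 : t * wt (fun y => R + dist y x0) k ≤ t * C := by gcongr
    have a4 : t * wt (fun y => Metric.infDist y S) k ≤ t * ε := by linarith
    have a5 := le_of_mul_le_mul_left a4 ht
    have a6 := norm_comb_sub (δ := δ) (δ' := fun y => δ (π y))
      (g := fun y => Metric.infDist y S) (fun y => by rw [hπ2]; exact h.lip _ _) k
    have a7 := norm_comb_sub (δ := δ) (δ' := fun _ => (0 : X))
      (g := fun y => R + dist y x0) (fun y => by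
        rw [sub_zero]; linarith [h.norm_le y]) k
    rw [comb_zero, sub_zero] at a7
    refine ⟨comb (fun y => δ (π y)) k,
      comb_mem (fun y => Submodule.subset_span (mem_image_of_mem δ (hπ1 y))) k, ?_, ?_⟩
    · have := norm_sub_le_norm_sub_add_norm_sub a (comb δ k) (comb (fun y => δ (π y)) k)
      linarith
    · have := norm_sub_le (comb δ k) (comb δ k - comb (fun y => δ (π y)) k)
      rw [sub_sub_cancel] at this
      linarith
  obtain ⟨H, hH1, hH2⟩ := finite_norming V (2 * (C + 3 * ε)) hε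
  have hsc : ∀ a, 1 < (a0⁻¹ • φ) a ↔ a0 < φ a := by
    intro a
    rw [smul_apply, smul_eq_mul, lt_inv_mul_iff₀ ha0pos, mul_one]
  refine ⟨a0⁻¹ • φ, H, (hsc x).mpr h5, hH1, fun a ha b hb' fa fb => ?_⟩
  obtain ⟨a', ha1, ha2, ha3⟩ := close a ha ((hsc a).mp fa)
  obtain ⟨b', hb1, hb2, hb3⟩ := close b hb' ((hsc b).mp fb)
  obtain ⟨g, hg, hg2⟩ := hH2 (a' - b') (V.sub_mem ha1 hb1) (by linarith [norm_sub_le a' b'])
  refine ⟨g, hg, ?_⟩
  have c1 := apply_le_of_norm g (hH1 g hg) ha2
  have c2 := apply_le_of_norm g (hH1 g hg) hb2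
  have c3 := le_abs_self (g (a - b))
  have c4 : ‖a - b‖ ≤ ‖a - a'‖ + ‖a' - b'‖ + ‖b - b'‖ := by
    have e : a - b = (a - a') + (a' - b') - (b - b') := by abel
    rw [e]
    linarith [norm_sub_le ((a - a') + (a' - b')) (b - b'), norm_add_le (a - a') (a' - b')]
  rw [map_sub] at c1 c2 c3 hg2
  rw [abs_le] at c1 c2
  rw [map_sub]
  linarith

theorem IsFree.lur {x0 : M} {δ : M → X} (h : IsFree x0 δ) :
    ∃ N : Seminorm ℝ X, (∀ x, ‖x‖ ≤ N x ∧ N x ≤ 2 * ‖x‖) ∧
      ∀ (x : X) (y : ℕ → X), N x = 1 → (∀ n, N (y n) = 1) →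
        Tendsto (fun n => N (y n + x)) atTop (𝓝 2) →
        Tendsto (fun n => N (y n - x)) atTop (𝓝 0) := by
  classical
  apply lur_criterion (J := ℕ × ℕ × ℕ)
    (fun j => WW x0 δ (j.2.1 + 1) (j.2.2 * ((1 / ((j.1 : ℝ) + 1)) / 2)) (1 / ((j.1 : ℝ) + 1)))
    (fun j => 10 * (1 / ((j.1 : ℝ) + 1)))
  · intro j; exact WW_open _ _ _ _ _
  · intro j; exact WW_convex _ _ _ _ _
  · intro j; exact WW_neg _ _ _ _ _
  · intro j
    exact ⟨_, by positivity, WW_ball _ _ _ (by positivity) _⟩
  intro x hx ε hε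
  have hn : 0 < ‖x‖ := norm_pos_iff.mpr hx
  obtain ⟨n, hn2⟩ := exists_nat_one_div_lt (lt_min hn (show 0 < ε / 10 by linarith))
  set e : ℝ := 1 / ((n : ℝ) + 1) with he
  have he0 : 0 < e := by positivity
  have he1 : e < ‖x‖ := hn2.trans_le (min_le_left _ _)
  have he2 : e < ε / 10 := hn2.trans_le (min_le_right _ _)
  obtain ⟨R, hR⟩ := h.large he1 (2 * ‖x‖ + e)
  have hex : ∃ k : ℕ, x ∈ WW x0 δ (R + 1) (k * (e / 2)) e := by
    obtain ⟨l, hl⟩ := h.approx x he0
    obtain ⟨k, hk⟩ := exists_nat_ge (wt (fun y => (R : ℝ) + 1 + dist y x0) l / (e / 2))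
    rw [div_le_iff₀ (by positivity)] at hk
    exact ⟨k, l, hk, hl⟩
  have hk1 := Nat.find_spec hex
  have hk2 := hR _ hk1
  have hk3 : Nat.find hex ≠ 0 := by
    intro k
    rw [k] at hk2
    simp only [Nat.cast_zero, zero_mul] at hk2
    linarith
  have hk4 := Nat.find_min hex (show Nat.find hex - 1 < Nat.find hex by omega)
  have hk5 : ((Nat.find hex - 1 : ℕ) : ℝ) * (e / 2) = Nat.find hex * (e / 2) - e / 2 := by
    rw [Nat.cast_sub (by omega)]; push_cast; ring
  rw [hk5] at hk4
  refine ⟨(n, R, Nat.find hex), by simp only; linarith, hk1, ?_⟩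
  exact h.slice (by positivity) he0 hx hk2 hk4

end Pool.Agent.Lib.MP_c2fecd_an
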