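import Pool.Agent.Lib.MP_c2fecd_an.Defs
import Pool.Agent.Lib.MP_c2fecd_an.Slice

open Set Filter Topology

namespace Pool.Agent.Lib.MP_c2fecd_an

universe u

variable {M : Type u} [MetricSpace M]

noncomputable def delta (x0 x : M) : freeSpace x0 :=
  ⟨evalAt x0 x, Submodule.le_topologicalClosure _ (Submodule.subset_span (mem_range_self x))⟩

theorem isFree_delta (x0 : M) : IsFree x0 (delta x0) where
  zero := by
    apply Subtype.ext
    ext f
    exact f.2.1
  lip a b := by
    change ‖evalAt x0 a - evalAt x0 b‖ ≤ _
    apply ContinuousLinearMap.opNorm_le_bound _ dist_nonneg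
    intro f
    have := le_lipConst f a b
    rw [mul_comm] at this
    exact this
  dense := by
    rw [Subtype.dense_iff]
    have : Subtype.val '' ((Submodule.span ℝ (range (delta x0)) : Submodule ℝ (freeSpace x0)) :
        Set (freeSpace x0)) = (Submodule.span ℝ (range (evalAt x0)) : Set _) := by
      have h := Submodule.map_span (freeSpace x0).subtype (range (delta x0))
      rw [← range_comp] at h
      have h2 := congrArg (fun V : Submodule ℝ (StrongDual ℝ (Lip0 x0)) =>
        (V : Set (StrongDual ℝ (Lip0 x0)))) h
      simp only [Submodule.map_coe] at h2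
      exact h2
    intro z hz
    exact closure_mono this.ge hz
  ext F L hL hF h0 := by
    let f : Lip0 x0 := ⟨F, h0, ⟨L, hL⟩, LipschitzWith.of_dist_le_mul hF⟩
    have hf : ‖f‖ ≤ L := lipConst_le hL hF
    refine ⟨LinearMap.mkContinuous
      { toFun := fun z => z.1 f
        map_add' := fun _ _ => rfl
        map_smul' := fun _ _ => rfl } L (fun z => ?_), LinearMap.mkContinuous_norm_le _ hL _,
      fun y => rfl⟩
    refine (z.1.le_opNorm f).trans ?_
    rw [mul_comm]
    exact mul_le_mul_of_nonneg_right hf (norm_nonneg _)

end Pool.Agent.Lib.MP_c2fecd_an
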