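import Pool.Agent.Lib.MP_c2fecd_an.Sq

open Set Filter Topology

namespace Pool.Agent.Lib.MP_c2fecd_an

variable {X : Type*} [NormedAddCommGroup X] [NormedSpace ℝ X]

/-- The slice `{f > 1}` of `W` is small up to the finitely many functionals in `H`. -/
def SliceProp (W : Set X) (e : ℝ) (f : X →L[ℝ] ℝ) (H : Finset (X →L[ℝ] ℝ)) : Prop :=
  (∀ h ∈ H, ‖h‖ ≤ 1) ∧
    ∀ a ∈ W, ∀ b ∈ W, 1 < f a → 1 < f b → ∃ h ∈ H, ‖a - b‖ ≤ e + |h (a - b)|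

def Conf (W : Set X) (e : ℝ) (m : ℕ) : Type _ :=
  {c : (X →L[ℝ] ℝ) × Finset (X →L[ℝ] ℝ) //
    ‖c.1‖ ≤ m ∧ c.2.card ≤ m + 1 ∧ SliceProp W e c.1 c.2}

noncomputable def qf (m : ℕ) (c : (X →L[ℝ] ℝ) × Finset (X →L[ℝ] ℝ)) (x : X) : ℝ :=
  c.1 x ^ 2 + (1 / ((m : ℝ) + 1) ^ 2) * ∑ h ∈ c.2, h x ^ 2

lemma qf_nonneg (m : ℕ) (c : (X →L[ℝ] ℝ) × Finset (X →L[ℝ] ℝ)) (x : X) : 0 ≤ qf m c x := by
  unfold qf; positivity

lemma qf_smul (m : ℕ) (c : (X →L[ℝ] ℝ) × Finset (X →L[ℝ] ℝ)) (a : ℝ) (x : X) :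
    qf m c (a • x) = a ^ 2 * qf m c x := by
  unfold qf
  simp only [map_smul, smul_eq_mul, mul_pow, ← Finset.mul_sum]
  ring

lemma qf_add (m : ℕ) (c : (X →L[ℝ] ℝ) × Finset (X →L[ℝ] ℝ)) {t : ℝ} (ht : 0 < t) (x y : X) :
    qf m c (x + y) ≤ (1 + t) * qf m c x + (1 + 1 / t) * qf m c y := by
  unfold qf
  have h1 := sq_add_le ht (c.1 x) (c.1 y)
  have h2 : ∑ h ∈ c.2, h (x + y) ^ 2 ≤
      (1 + t) * ∑ h ∈ c.2, h x ^ 2 + (1 + 1 / t) * ∑ h ∈ c.2, h y ^ 2 := by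
    rw [Finset.mul_sum, Finset.mul_sum, ← Finset.sum_add_distrib]
    apply Finset.sum_le_sum
    intro h _
    rw [map_add]
    exact sq_add_le ht _ _
  have h3 := mul_le_mul_of_nonneg_left h2 (show 0 ≤ 1 / ((m : ℝ) + 1) ^ 2 by positivity)
  rw [map_add]
  linarith

lemma qf_par (m : ℕ) (c : (X →L[ℝ] ℝ) × Finset (X →L[ℝ] ℝ)) (x y : X) :
    qf m c (x - y) = 2 * qf m c x + 2 * qf m c y - qf m c (x + y) := by
  unfold qf
  have h2 : ∑ h ∈ c.2, h (x - y) ^ 2 =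
      2 * ∑ h ∈ c.2, h x ^ 2 + 2 * ∑ h ∈ c.2, h y ^ 2 - ∑ h ∈ c.2, h (x + y) ^ 2 := by
    rw [Finset.mul_sum, Finset.mul_sum, ← Finset.sum_add_distrib, ← Finset.sum_sub_distrib]
    apply Finset.sum_congr rfl
    intro h _
    rw [map_add, map_sub]; ring
  rw [h2, map_add, map_sub]; ring

lemma sum_sq_le {H : Finset (X →L[ℝ] ℝ)} (hH : ∀ h ∈ H, ‖h‖ ≤ 1) (x : X) :
    ∑ h ∈ H, h x ^ 2 ≤ H.card * ‖x‖ ^ 2 := by
  rw [← nsmul_eq_mul]
  apply Finset.sum_le_card_nsmul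
  intro h hh
  have h1 : |h x| ≤ ‖x‖ := by
    have := h.le_opNorm x
    rw [Real.norm_eq_abs] at this
    nlinarith [hH h hh, norm_nonneg x]
  rw [← sq_abs]
  exact pow_le_pow_left₀ (abs_nonneg _) h1 2

lemma tail_le {W : Set X} {e : ℝ} {m : ℕ} (c : Conf W e m) (x : X) :
    (1 / ((m : ℝ) + 1) ^ 2) * ∑ h ∈ c.1.2, h x ^ 2 ≤ ‖x‖ ^ 2 / (m + 1) := by
  have h1 := sum_sq_le c.2.2.2.1 x
  have h2 : (c.1.2.card : ℝ) ≤ m + 1 := by exact_mod_cast c.2.2.1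
  calc (1 / ((m : ℝ) + 1) ^ 2) * ∑ h ∈ c.1.2, h x ^ 2
      ≤ (1 / ((m : ℝ) + 1) ^ 2) * ((m + 1) * ‖x‖ ^ 2) := by
        gcongr
        refine h1.trans ?_
        gcongr
    _ = _ := by field_simp

lemma qf_le {W : Set X} {e : ℝ} {m : ℕ} (c : Conf W e m) (x : X) :
    qf m c.1 x ≤ ((m : ℝ) ^ 2 + 1) * ‖x‖ ^ 2 := by
  have h1 := tail_le c x
  have h2 : ‖x‖ ^ 2 / ((m : ℝ) + 1) ≤ ‖x‖ ^ 2 :=
    div_le_self (sq_nonneg _) (by linarith [Nat.cast_nonneg (α := ℝ) m])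
  have h3 : |c.1.1 x| ≤ m * ‖x‖ := by
    have := c.1.1.le_opNorm x
    rw [Real.norm_eq_abs] at this
    exact this.trans (mul_le_mul_of_nonneg_right c.2.1 (norm_nonneg _))
  have h4 : c.1.1 x ^ 2 ≤ (m * ‖x‖) ^ 2 := by
    rw [← sq_abs]
    exact pow_le_pow_left₀ (abs_nonneg _) h3 2
  unfold qf
  nlinarith

noncomputable def supQ (W : Set X) (e : ℝ) (m : ℕ) (x : X) : ℝ := ⨆ c : Conf W e m, qf m c.1 x

lemma supQ_bdd (W : Set X) (e : ℝ) (m : ℕ) (x : X) :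
    BddAbove (range fun c : Conf W e m => qf m c.1 x) :=
  ⟨_, by rintro _ ⟨c, rfl⟩; exact qf_le c x⟩

lemma le_supQ {W : Set X} {e : ℝ} {m : ℕ} (c : Conf W e m) (x : X) :
    qf m c.1 x ≤ supQ W e m x := le_ciSup (supQ_bdd W e m x) c

lemma supQ_le (W : Set X) (e : ℝ) (m : ℕ) (x : X) :
    supQ W e m x ≤ ((m : ℝ) ^ 2 + 1) * ‖x‖ ^ 2 :=
  Real.iSup_le (fun c => qf_le c x) (by positivity)

lemma isSq_supQ (W : Set X) (e : ℝ) (m : ℕ) : IsSq (supQ W e m) where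
  nonneg x := Real.iSup_nonneg (fun c => qf_nonneg _ _ _)
  smul a x := by
    unfold supQ
    rw [Real.mul_iSup_of_nonneg (sq_nonneg a)]
    simp only [qf_smul]
  add t ht x y := by
    have h1 : 0 ≤ supQ W e m x := Real.iSup_nonneg (fun c => qf_nonneg _ _ _)
    have h2 : 0 ≤ supQ W e m y := Real.iSup_nonneg (fun c => qf_nonneg _ _ _)
    refine Real.iSup_le (fun c => (qf_add m c.1 ht x y).trans ?_) (by positivity)
    have h3 := le_supQ c x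
    have h4 := le_supQ c y
    gcongr

lemma supQ_key {W : Set X} (hW : ∀ a ∈ W, -a ∈ W) {e : ℝ} {x : X} (hx : x ∈ W)
    {f : X →L[ℝ] ℝ} {H : Finset (X →L[ℝ] ℝ)} (hf : 1 < f x) (hH : SliceProp W e f H)
    {ε : ℝ} (hε : 0 < ε) :
    ∃ (m : ℕ) (η : ℝ), 0 < η ∧ ∀ y ∈ W, defect (supQ W e m) x y < η → ‖x - y‖ ≤ e + ε := by
  set ρ := f x - 1 with hρ
  have hρ0 : 0 < ρ := by linarith
  obtain ⟨m, hm⟩ := exists_nat_ge (max (max ‖f‖ H.card) (2 * ‖x‖ ^ 2 / ρ))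
  have hm1 : ‖f‖ ≤ m := ((le_max_left _ _).trans (le_max_left _ _)).trans hm
  have hm2 : (H.card : ℝ) ≤ m := ((le_max_right _ _).trans (le_max_left _ _)).trans hm
  have hm3 : 2 * ‖x‖ ^ 2 / ρ ≤ m := (le_max_right _ _).trans hm
  have hm4 : ‖x‖ ^ 2 / ((m : ℝ) + 1) ≤ ρ / 2 := by
    rw [div_le_iff₀ hρ0] at hm3
    rw [div_le_iff₀ (by positivity)]
    nlinarith
  let c0 : Conf W e m := ⟨(f, H), hm1, by
    have : H.card ≤ m := by exact_mod_cast hm2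
    exact this.trans (Nat.le_succ m), hH⟩
  set σ := min (ρ / 3) 1 with hσ
  have hσ0 : 0 < σ := lt_min (by linarith) one_pos
  have hσ1 : σ ≤ ρ / 3 := min_le_left _ _
  have hσ2 : σ ≤ 1 := min_le_right _ _
  set η := min (min (ρ / 2) (σ ^ 2 / 4)) (ε ^ 2 / (2 * ((m : ℝ) + 1) ^ 2)) with hη
  have hη0 : 0 < η := lt_min (lt_min (by linarith) (by positivity)) (by positivity)
  have hη1 : η ≤ ρ / 2 := (min_le_left _ _).trans (min_le_left _ _)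
  have hη2 : η ≤ σ ^ 2 / 4 := (min_le_left _ _).trans (min_le_right _ _)
  have hη3 : η ≤ ε ^ 2 / (2 * ((m : ℝ) + 1) ^ 2) := min_le_right _ _
  refine ⟨m, η, hη0, fun y hy hD => ?_⟩
  have : Nonempty (Conf W e m) := ⟨c0⟩
  obtain ⟨c, hc⟩ : ∃ c : Conf W e m, supQ W e m (x + y) - η < qf m c.1 (x + y) :=
    exists_lt_of_lt_ciSup (show supQ W e m (x + y) - η < supQ W e m (x + y) by linarith)
  have p1 := qf_par m c.1 x y
  have p2 := le_supQ c x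
  have p3 := le_supQ c y
  have p4 := qf_nonneg m c.1 (x - y)
  unfold defect at hD
  have p5 : qf m c.1 (x - y) ≤ 2 * η := by linarith
  have p6 : supQ W e m x - η ≤ qf m c.1 x := by linarith
  have p7 : (1 + ρ) ^ 2 ≤ supQ W e m x := by
    refine le_trans ?_ (le_supQ c0 x)
    have : f x = 1 + ρ := by linarith
    unfold qf
    simp only [c0]
    rw [this]
    have : 0 ≤ (1 / ((m : ℝ) + 1) ^ 2) * ∑ h ∈ H, h x ^ 2 := by positivity
    linarith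
  have p8 : (1 + σ) ^ 2 ≤ c.1.1 x ^ 2 := by
    have := tail_le c x
    unfold qf at p6
    nlinarith
  have p9 : c.1.1 (x - y) ^ 2 ≤ 2 * η := by
    refine le_trans ?_ p5
    unfold qf
    have : 0 ≤ (1 / ((m : ℝ) + 1) ^ 2) * ∑ h ∈ c.1.2, h (x - y) ^ 2 := by positivity
    linarith
  have p10 : |c.1.1 x - c.1.1 y| < σ := by
    rw [← map_sub]
    apply abs_lt_of_sq_lt_sq _ hσ0.le
    nlinarith
  have p11 : ∀ h ∈ c.1.2, |h (x - y)| ≤ ε := by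
    intro h hh
    apply abs_le_of_sq_le_sq _ hε.le
    have q1 : h (x - y) ^ 2 ≤ ∑ h ∈ c.1.2, h (x - y) ^ 2 :=
      Finset.single_le_sum (f := fun h : X →L[ℝ] ℝ => h (x - y) ^ 2)
        (fun _ _ => sq_nonneg _) hh
    have q2 : (1 / ((m : ℝ) + 1) ^ 2) * ∑ h ∈ c.1.2, h (x - y) ^ 2 ≤ 2 * η := by
      refine le_trans ?_ p5
      unfold qf
      linarith [sq_nonneg (c.1.1 (x - y))]
    have q3 : (0 : ℝ) < ((m : ℝ) + 1) ^ 2 := by positivity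
    rw [one_div, inv_mul_le_iff₀ q3] at q2
    rw [le_div_iff₀ (by positivity)] at hη3
    linarith
  have p12 : 1 + σ ≤ |c.1.1 x| := by
    apply le_of_sq_le_sq _ (abs_nonneg _)
    rwa [sq_abs]
  rw [abs_lt] at p10
  rcases le_abs.mp p12 with k | k
  · obtain ⟨h, hh, hxy⟩ := c.2.2.2.2 x hx y hy (by linarith) (by linarith)
    linarith [p11 h hh]
  · obtain ⟨h, hh, hxy⟩ := c.2.2.2.2 (-x) (hW x hx) (-y) (hW y hy)
      (by rw [map_neg]; linarith) (by rw [map_neg]; linarith)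
    have e1 : -x - -y = -(x - y) := by abel
    rw [e1, norm_neg, map_neg, abs_neg] at hxy
    linarith [p11 h hh]

lemma gauge_key {W : Set X} (ho : IsOpen W) (hc : Convex ℝ W) (hs : ∀ a ∈ W, -a ∈ W)
    {r : ℝ} (hr : 0 < r) (hb : Metric.ball 0 r ⊆ W) :
    ∃ Q : X → ℝ, IsSq Q ∧ (∃ c : ℝ, ∀ x, Q x ≤ c * ‖x‖ ^ 2) ∧
      ∀ x ∈ W, ∃ η : ℝ, 0 < η ∧ ∀ y, defect Q x y < η → y ∈ W := by
  have h0 : (0 : X) ∈ W := hb (Metric.mem_ball_self hr)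
  have habs : Absorbent ℝ W := (absorbent_ball_zero hr).mono hb
  have hbal : Balanced ℝ W := by
    rw [balanced_iff_neg_mem hc]
    intro a ha; exact hs a ha
  let p := gaugeSeminorm hbal hc habs
  have hp : ∀ x, p x = gauge W x := fun x => rfl
  refine ⟨fun x => p x ^ 2, isSq_seminorm p, ⟨1 / r ^ 2, fun x => ?_⟩, fun x hx => ?_⟩
  · have h1 : p x ≤ ‖x‖ / r := by
      rw [hp, ← gauge_ball hr.le]
      exact gauge_mono (absorbent_ball_zero hr) hb x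
    calc p x ^ 2 ≤ (‖x‖ / r) ^ 2 := pow_le_pow_left₀ (apply_nonneg _ _) h1 2
      _ = _ := by field_simp
  · have h1 : p x < 1 := gauge_lt_one_of_mem_of_isOpen ho hx
    refine ⟨(1 - p x) ^ 2, by positivity, fun y hy => ?_⟩
    apply setOfPred_gauge_lt_one_subset_self hc h0 habs
    show p y < 1
    unfold defect at hy
    have h2 : p (x + y) ^ 2 ≤ (p x + p y) ^ 2 :=
      pow_le_pow_left₀ (apply_nonneg _ _) (map_add_le_add p x y) 2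
    have h3 : (p y - p x) ^ 2 < (1 - p x) ^ 2 := by nlinarith
    have h4 := abs_lt_of_sq_lt_sq h3 (by linarith)
    rw [abs_lt] at h4
    linarith

theorem lur_criterion {J : Type} [Countable J] (W : J → Set X) (e : J → ℝ)
    (ho : ∀ j, IsOpen (W j)) (hc : ∀ j, Convex ℝ (W j)) (hs : ∀ j, ∀ a ∈ W j, -a ∈ W j)
    (hb : ∀ j, ∃ r : ℝ, 0 < r ∧ Metric.ball 0 r ⊆ W j)
    (hmain : ∀ x : X, x ≠ 0 → ∀ ε : ℝ, 0 < ε → ∃ j, e j ≤ ε ∧ x ∈ W j ∧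
      ∃ (f : X →L[ℝ] ℝ) (H : Finset (X →L[ℝ] ℝ)), 1 < f x ∧ SliceProp (W j) (e j) f H) :
    ∃ N : Seminorm ℝ X, (∀ x, ‖x‖ ≤ N x ∧ N x ≤ 2 * ‖x‖) ∧
      ∀ (x : X) (y : ℕ → X), N x = 1 → (∀ n, N (y n) = 1) →
        Tendsto (fun n => N (y n + x)) atTop (𝓝 2) →
        Tendsto (fun n => N (y n - x)) atTop (𝓝 0) := by
  choose r hr hrb using hb
  choose G hG1 hG2 hG3 using fun j => gauge_key (ho j) (hc j) (hs j) (hr j) (hrb j)
  let Q : J ⊕ (J × ℕ) → X → ℝ := Sum.elim G (fun z => supQ (W z.1) (e z.1) z.2)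
  obtain ⟨N, hN1, hN2⟩ := exists_norm_of_family Q
    (by
      rintro (j | z)
      · exact hG1 j
      · exact isSq_supQ _ _ _)
    (by
      rintro (j | z)
      · exact hG2 j
      · exact ⟨_, supQ_le _ _ _⟩)
  refine ⟨N, hN1, fun x y hx hy hxy => ?_⟩
  have hx0 : x ≠ 0 := by
    rintro rfl
    simp at hx
  have hD : Tendsto (fun n => defect (fun z => N z ^ 2) x (y n)) atTop (𝓝 0) := by
    have : Tendsto (fun n => 4 - N (y n + x) ^ 2) atTop (𝓝 (4 - 2 ^ 2)) :=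
      (hxy.pow 2).const_sub 4
    norm_num at this
    refine this.congr (fun n => ?_)
    unfold defect
    beta_reduce
    rw [hx, hy, add_comm x]; ring
  have hev : ∀ j (η : ℝ), 0 < η → ∀ᶠ n in atTop, defect (Q j) x (y n) < η := by
    intro j η hη
    obtain ⟨w, hw, hw2⟩ := hN2 j
    filter_upwards [hD.eventually (gt_mem_nhds (mul_pos hw hη))] with n hn
    exact lt_of_mul_lt_mul_left ((hw2 x (y n)).trans_lt hn) hw.le
  rw [Metric.tendsto_atTop']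
  intro ε hε
  obtain ⟨j, hj1, hj2, f, H, hf, hH⟩ := hmain x hx0 (ε / 5) (by linarith)
  obtain ⟨m, η, hη, hm⟩ := supQ_key (hs j) hj2 hf hH (show 0 < ε / 5 by linarith)
  obtain ⟨η', hη', hm'⟩ := hG3 j x hj2
  have := (hev (Sum.inl j) η' hη').and (hev (Sum.inr (j, m)) η hη)
  obtain ⟨n0, hn0⟩ := eventually_atTop.mp this
  refine ⟨n0, fun n hn => ?_⟩
  obtain ⟨k1, k2⟩ := hn0 n hn.le
  have k3 := hm (y n) (hm' _ k1) k2
  rw [Real.dist_eq, sub_zero, abs_of_nonneg (apply_nonneg _ _)]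
  have k4 := (hN1 (y n - x)).2
  rw [norm_sub_rev] at k4
  linarith

end Pool.Agent.Lib.MP_c2fecd_an
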