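import Mathlib

/-!
The space `Lip0 x0` of real Lipschitz functions on a metric space vanishing at the base point,
normed by the best Lipschitz constant, the evaluation functionals, and the Lipschitz-free space.
-/

namespace Pool.Agent.Lib.MP_c2fecd_an

universe u

variable {M : Type u} [MetricSpace M]

/-- Real Lipschitz functions on `M` that vanish at `x0`. -/
def lipSubmodule (x0 : M) : Submodule ℝ (M → ℝ) where
  carrier := {f | f x0 = 0 ∧ ∃ K : NNReal, LipschitzWith K f}
  add_mem' := by
    rintro f g ⟨hf, K, hK⟩ ⟨hg, L, hL⟩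
    exact ⟨by simp [hf, hg], K + L, hK.add hL⟩
  zero_mem' := ⟨rfl, 0, LipschitzWith.const 0⟩
  smul_mem' := by
    rintro c f ⟨hf, K, hK⟩
    exact ⟨by simp [hf], ‖c‖₊ * K, (lipschitzWith_smul c).comp hK⟩

/-- The same space as a new type, so that it carries only the Lipschitz norm. -/
def Lip0 (x0 : M) : Type u := lipSubmodule x0

instance (x0 : M) : AddCommGroup (Lip0 x0) := inferInstanceAs (AddCommGroup (lipSubmodule x0))

instance (x0 : M) : Module ℝ (Lip0 x0) := inferInstanceAs (Module ℝ (lipSubmodule x0))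

/-- The best Lipschitz constant. -/
noncomputable def lipConst (f : M → ℝ) : ℝ :=
  ⨆ p : {p : M × M // p.1 ≠ p.2}, |f p.1.1 - f p.1.2| / dist p.1.1 p.1.2

theorem lipConst_le {f : M → ℝ} {L : ℝ} (hL : 0 ≤ L) (h : ∀ a b, |f a - f b| ≤ L * dist a b) :
    lipConst f ≤ L :=
  Real.iSup_le (fun p => (div_le_iff₀ (dist_pos.mpr p.2)).mpr (h _ _)) hL

theorem lipConst_nonneg (f : M → ℝ) : 0 ≤ lipConst f :=
  Real.iSup_nonneg (fun _ => by positivity)

theorem le_lipConst {x0 : M} (f : lipSubmodule x0) (a b : M) :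
    |f.1 a - f.1 b| ≤ lipConst f.1 * dist a b := by
  rcases eq_or_ne a b with rfl | hab
  · simp
  obtain ⟨K, hK⟩ := f.2.2
  rw [← div_le_iff₀ (dist_pos.mpr hab)]
  refine le_ciSup (f := fun p : {p : M × M // p.1 ≠ p.2} =>
    |f.1 p.1.1 - f.1 p.1.2| / dist p.1.1 p.1.2) ⟨K, ?_⟩ ⟨(a, b), hab⟩
  rintro _ ⟨p, rfl⟩
  exact (div_le_iff₀ (dist_pos.mpr p.2)).mpr (hK.dist_le_mul _ _)

/-- The best Lipschitz constant is a norm. -/
noncomputable def lipNorm (x0 : M) : AddGroupNorm (Lip0 x0) where
  toFun f := lipConst f.1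
  map_zero' := le_antisymm (lipConst_le le_rfl (fun a b => by
    change |(0 : ℝ) - 0| ≤ _
    simp)) (lipConst_nonneg _)
  add_le' f g := lipConst_le (add_nonneg (lipConst_nonneg _) (lipConst_nonneg _)) (fun a b => by
    change |(f.1 a + g.1 a) - (f.1 b + g.1 b)| ≤ _
    have h1 := le_lipConst f a b
    have h2 := le_lipConst g a b
    have h3 := abs_add_le (f.1 a - f.1 b) (g.1 a - g.1 b)
    rw [add_sub_add_comm]
    linarith)
  neg' f := by
    change lipConst (fun a => -f.1 a) = lipConst f.1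
    unfold lipConst
    congr 1
    ext p
    rw [neg_sub_neg, abs_sub_comm]
  eq_zero_of_map_eq_zero' f hf := by
    apply Subtype.ext
    funext a
    have h1 := le_lipConst f a x0
    have h2 : lipConst f.1 = 0 := hf
    rw [h2, f.2.1] at h1
    change f.1 a = 0
    simpa using h1

noncomputable instance (x0 : M) : NormedAddCommGroup (Lip0 x0) :=
  (lipNorm x0).toNormedAddCommGroup

noncomputable instance (x0 : M) : NormedSpace ℝ (Lip0 x0) where
  norm_smul_le c f := lipConst_le (mul_nonneg (norm_nonneg _) (lipConst_nonneg _)) (fun a b => by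
    change |c * f.1 a - c * f.1 b| ≤ |c| * lipConst f.1 * dist a b
    rw [← mul_sub, abs_mul, mul_assoc]
    exact mul_le_mul_of_nonneg_left (le_lipConst f a b) (abs_nonneg c))

/-- Evaluation at `x`, as an element of the dual of `Lip0 x0`. -/
noncomputable def evalAt (x0 x : M) : StrongDual ℝ (Lip0 x0) :=
  LinearMap.mkContinuous
    { toFun := fun f => f.1 x
      map_add' := fun _ _ => rfl
      map_smul' := fun _ _ => rfl } (dist x x0) (fun f => by
    have h := le_lipConst f x x0
    rw [f.2.1, sub_zero, mul_comm] at h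
    exact h)

/-- The Lipschitz-free space: the norm-closed linear span of the evaluations. -/
noncomputable def freeSpace (x0 : M) : Submodule ℝ (StrongDual ℝ (Lip0 x0)) :=
  (Submodule.span ℝ (Set.range (evalAt x0))).topologicalClosure

/-- A real normed space admits an equivalent locally uniformly rotund norm. -/
def AdmitsLUR (Z : Type u) [NormedAddCommGroup Z] [NormedSpace ℝ Z] : Prop :=
  ∃ N : Seminorm ℝ Z,
    (∃ c C : ℝ, 0 < c ∧ 0 < C ∧ ∀ z, c * ‖z‖ ≤ N z ∧ N z ≤ C * ‖z‖) ∧
    ∀ (z : Z) (w : ℕ → Z), N z = 1 → (∀ n, N (w n) = 1) →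
      Filter.Tendsto (fun n => N (w n + z)) Filter.atTop (nhds 2) →
      Filter.Tendsto (fun n => N (w n - z)) Filter.atTop (nhds 0)

end Pool.Agent.Lib.MP_c2fecd_an
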