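import Pool.Agent.Lib.MP_c2fecd_an.Criterion

open Set Filter Topology

namespace Pool.Agent.Lib.MP_c2fecd_an

variable {M : Type*} [MetricSpace M] {X : Type*} [NormedAddCommGroup X] [NormedSpace ℝ X]

/-- The properties of the free space that the proof uses. -/
structure IsFree (x0 : M) (δ : M → X) : Prop where
  zero : δ x0 = 0
  lip : ∀ a b, ‖δ a - δ b‖ ≤ dist a b
  dense : Dense ((Submodule.span ℝ (Set.range δ) : Submodule ℝ X) : Set X)
  ext : ∀ (F : M → ℝ) (L : ℝ), 0 ≤ L → (∀ a b, |F a - F b| ≤ L * dist a b) → F x0 = 0 →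
    ∃ φ : X →L[ℝ] ℝ, ‖φ‖ ≤ L ∧ ∀ y, φ (δ y) = F y

noncomputable def comb (δ : M → X) (l : List (ℝ × M)) : X := (l.map fun p => p.1 • δ p.2).sum

noncomputable def wt (w : M → ℝ) (l : List (ℝ × M)) : ℝ := (l.map fun p => |p.1| * w p.2).sum

def scale (c : ℝ) (l : List (ℝ × M)) : List (ℝ × M) := l.map fun p => (c * p.1, p.2)

omit [MetricSpace M] in
@[simp] lemma comb_nil (δ : M → X) : comb δ [] = 0 := rfl

omit [MetricSpace M] in
@[simp] lemma comb_cons (δ : M → X) (p : ℝ × M) (l : List (ℝ × M)) :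
    comb δ (p :: l) = p.1 • δ p.2 + comb δ l := by simp [comb]

omit [MetricSpace M] in
@[simp] lemma wt_nil (w : M → ℝ) : wt w [] = 0 := rfl

omit [MetricSpace M] in
@[simp] lemma wt_cons (w : M → ℝ) (p : ℝ × M) (l : List (ℝ × M)) :
    wt w (p :: l) = |p.1| * w p.2 + wt w l := by simp [wt]

omit [MetricSpace M] in
lemma comb_append (δ : M → X) (l k : List (ℝ × M)) : comb δ (l ++ k) = comb δ l + comb δ k := by
  simp [comb]

omit [MetricSpace M] in
lemma wt_append (w : M → ℝ) (l k : List (ℝ × M)) : wt w (l ++ k) = wt w l + wt w k := by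
  simp [wt]

omit [MetricSpace M] in
lemma comb_scale (δ : M → X) (c : ℝ) (l : List (ℝ × M)) : comb δ (scale c l) = c • comb δ l := by
  induction l with
  | nil => simp [scale]
  | cons p l ih =>
    have : scale c (p :: l) = (c * p.1, p.2) :: scale c l := rfl
    rw [this, comb_cons, comb_cons, ih, smul_add, mul_smul]

omit [MetricSpace M] in
lemma wt_scale (w : M → ℝ) (c : ℝ) (l : List (ℝ × M)) : wt w (scale c l) = |c| * wt w l := by
  induction l with
  | nil => simp [scale]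
  | cons p l ih =>
    have : scale c (p :: l) = (c * p.1, p.2) :: scale c l := rfl
    rw [this, wt_cons, wt_cons, ih, abs_mul]; ring

omit [MetricSpace M] in
lemma wt_mono {w v : M → ℝ} (h : ∀ y, w y ≤ v y) (l : List (ℝ × M)) : wt w l ≤ wt v l := by
  induction l with
  | nil => simp
  | cons p l ih =>
    rw [wt_cons, wt_cons]
    have := mul_le_mul_of_nonneg_left (h p.2) (abs_nonneg p.1)
    linarith

omit [MetricSpace M] in
lemma wt_lin (w v : M → ℝ) (a b : ℝ) (l : List (ℝ × M)) :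
    wt (fun y => a * w y + b * v y) l = a * wt w l + b * wt v l := by
  induction l with
  | nil => simp
  | cons p l ih => rw [wt_cons, wt_cons, wt_cons, ih]; ring

omit [MetricSpace M] in
lemma apply_comb_le {δ : M → X} (φ : X →L[ℝ] ℝ) {g : M → ℝ} (h : ∀ y, |φ (δ y)| ≤ g y)
    (l : List (ℝ × M)) : φ (comb δ l) ≤ wt g l := by
  induction l with
  | nil => simp
  | cons p l ih =>
    rw [comb_cons, wt_cons, map_add, map_smul, smul_eq_mul]
    have h1 : p.1 * φ (δ p.2) ≤ |p.1| * g p.2 := by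
      refine (le_abs_self _).trans ?_
      rw [abs_mul]
      exact mul_le_mul_of_nonneg_left (h p.2) (abs_nonneg _)
    linarith

omit [MetricSpace M] in
lemma apply_comb_congr {δ : M → X} (φ ψ : X →L[ℝ] ℝ) (l : List (ℝ × M))
    (h : ∀ p ∈ l, φ (δ p.2) = ψ (δ p.2)) : φ (comb δ l) = ψ (comb δ l) := by
  induction l with
  | nil => simp
  | cons p l ih =>
    rw [comb_cons, map_add, map_add, map_smul, map_smul, h p List.mem_cons_self,
      ih (fun q hq => h q (List.mem_cons_of_mem _ hq))]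

omit [MetricSpace M] in
lemma norm_comb_sub {δ δ' : M → X} {g : M → ℝ} (h : ∀ y, ‖δ y - δ' y‖ ≤ g y)
    (l : List (ℝ × M)) : ‖comb δ l - comb δ' l‖ ≤ wt g l := by
  induction l with
  | nil => simp
  | cons p l ih =>
    rw [comb_cons, comb_cons, wt_cons]
    have e : p.1 • δ p.2 + comb δ l - (p.1 • δ' p.2 + comb δ' l) =
        p.1 • (δ p.2 - δ' p.2) + (comb δ l - comb δ' l) := by
      rw [smul_sub]; abel
    rw [e]
    refine (norm_add_le _ _).trans ?_
    rw [norm_smul, Real.norm_eq_abs]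
    have := mul_le_mul_of_nonneg_left (h p.2) (abs_nonneg p.1)
    linarith

omit [MetricSpace M] in
lemma comb_zero (l : List (ℝ × M)) : comb (fun _ => (0 : X)) l = 0 := by
  induction l with
  | nil => simp
  | cons p l ih => rw [comb_cons, ih]; simp

omit [MetricSpace M] in
lemma comb_mem {δ : M → X} {V : Submodule ℝ X} (h : ∀ y, δ y ∈ V) (l : List (ℝ × M)) :
    comb δ l ∈ V := by
  induction l with
  | nil => simp
  | cons p l ih => rw [comb_cons]; exact V.add_mem (V.smul_mem _ (h _)) ih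

omit [MetricSpace M] in
lemma exists_comb {δ : M → X} {z : X} (hz : z ∈ Submodule.span ℝ (Set.range δ)) :
    ∃ l, comb δ l = z := by
  induction hz using Submodule.span_induction with
  | mem x hx => obtain ⟨y, rfl⟩ := hx; exact ⟨[(1, y)], by simp⟩
  | zero => exact ⟨[], rfl⟩
  | add x y _ _ hx hy =>
    obtain ⟨l, rfl⟩ := hx
    obtain ⟨k, rfl⟩ := hy
    exact ⟨l ++ k, comb_append _ _ _⟩
  | smul c x _ hx =>
    obtain ⟨l, rfl⟩ := hx
    exact ⟨scale c l, comb_scale _ _ _⟩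

lemma IsFree.approx {x0 : M} {δ : M → X} (h : IsFree x0 δ) (x : X) {η : ℝ} (hη : 0 < η) :
    ∃ l, ‖x - comb δ l‖ < η := by
  obtain ⟨z, hz, hz2⟩ := h.dense.exists_dist_lt x hη
  obtain ⟨l, rfl⟩ := exists_comb hz
  exact ⟨l, by rwa [← dist_eq_norm]⟩

lemma IsFree.trunc {x0 : M} {δ : M → X} (h : IsFree x0 δ) (f : X →L[ℝ] ℝ) {L : ℝ}
    (hL : ‖f‖ ≤ L) {G : M → ℝ} (hG0 : ∀ y, 0 ≤ G y) (hG : ∀ a b, |G a - G b| ≤ L * dist a b) :
    ∃ φ : X →L[ℝ] ℝ, ‖φ‖ ≤ L ∧ (∀ y, |φ (δ y)| ≤ G y) ∧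
      ∀ y, |f (δ y)| ≤ G y → φ (δ y) = f (δ y) := by
  have hf : ∀ a b, |f (δ a) - f (δ b)| ≤ L * dist a b := by
    intro a b
    rw [← map_sub]
    have := f.le_opNorm (δ a - δ b)
    rw [Real.norm_eq_abs] at this
    exact this.trans (mul_le_mul hL (h.lip a b) (norm_nonneg _) ((norm_nonneg _).trans hL))
  obtain ⟨φ, h1, h2⟩ := h.ext (fun y => max (-G y) (min (f (δ y)) (G y))) L
    ((norm_nonneg _).trans hL) (by
      intro a b
      refine (abs_max_sub_max_le_max _ _ _ _).trans (max_le ?_ ?_)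
      · have := hG a b
        rw [abs_sub_comm] at this
        have e : -G a - -G b = G b - G a := by ring
        rwa [e]
      · exact (abs_min_sub_min_le_max _ _ _ _).trans (max_le (hf a b) (hG a b)))
    (by
      have := hG0 x0
      simp only [h.zero, map_zero]
      rw [min_eq_left this, max_eq_right (by linarith)])
  refine ⟨φ, h1, fun y => ?_, fun y hy => ?_⟩
  · rw [h2, abs_le]
    have := hG0 y
    exact ⟨le_max_left _ _, max_le (by linarith) (min_le_right _ _)⟩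
  · rw [abs_le] at hy
    rw [h2, min_eq_left hy.2, max_eq_right hy.1]

/-- The open convex sets used for the renorming. -/
def WW (x0 : M) (δ : M → X) (R C ε : ℝ) : Set X :=
  {x | ∃ l, wt (fun y => R + dist y x0) l ≤ C ∧ ‖x - comb δ l‖ < ε}

lemma WW_open (x0 : M) (δ : M → X) (R C ε : ℝ) : IsOpen (WW x0 δ R C ε) := by
  have : WW x0 δ R C ε = ⋃ l ∈ {l | wt (fun y => R + dist y x0) l ≤ C},
      Metric.ball (comb δ l) ε := by
    ext x
    simp [WW, dist_eq_norm]
  rw [this]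
  exact isOpen_biUnion (fun _ _ => Metric.isOpen_ball)

lemma WW_neg (x0 : M) (δ : M → X) (R C ε : ℝ) : ∀ a ∈ WW x0 δ R C ε, -a ∈ WW x0 δ R C ε := by
  rintro a ⟨l, h1, h2⟩
  refine ⟨scale (-1) l, by simpa [wt_scale] using h1, ?_⟩
  have e : -a - -comb δ l = -(a - comb δ l) := by abel
  rwa [comb_scale, neg_one_smul, e, norm_neg]

lemma WW_convex (x0 : M) (δ : M → X) (R C ε : ℝ) : Convex ℝ (WW x0 δ R C ε) := by
  rintro a ⟨l, h1, h2⟩ b ⟨k, h3, h4⟩ s t hs ht hst
  refine ⟨scale s l ++ scale t k, ?_, ?_⟩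
  · rw [wt_append, wt_scale, wt_scale, abs_of_nonneg hs, abs_of_nonneg ht]
    have e : C = s * C + t * C := by rw [← add_mul, hst, one_mul]
    rw [e]
    gcongr
  · rw [comb_append, comb_scale, comb_scale]
    have := convex_ball (0 : X) ε (mem_ball_zero_iff.mpr h2) (mem_ball_zero_iff.mpr h4) hs ht hst
    rw [mem_ball_zero_iff] at this
    have e : s • a + t • b - (s • comb δ l + t • comb δ k) =
        s • (a - comb δ l) + t • (b - comb δ k) := by
      rw [smul_sub, smul_sub]; abel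
    rwa [e]

lemma WW_ball (x0 : M) (δ : M → X) (R : ℝ) {C : ℝ} (hC : 0 ≤ C) (ε : ℝ) :
    Metric.ball 0 ε ⊆ WW x0 δ R C ε := by
  intro x hx
  exact ⟨[], by simpa using hC, by simpa using hx⟩

lemma finite_norming (V : Submodule ℝ X) [FiniteDimensional ℝ V] (ρ : ℝ) {ε : ℝ} (hε : 0 < ε) :
    ∃ H : Finset (X →L[ℝ] ℝ), (∀ h ∈ H, ‖h‖ ≤ 1) ∧
      ∀ z ∈ V, ‖z‖ ≤ ρ → ∃ h ∈ H, ‖z‖ ≤ 2 * ε + h z := by
  classical
  have hK : IsCompact (Subtype.val '' Metric.closedBall (0 : V) ρ) :=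
    (isCompact_closedBall (0 : V) ρ).image continuous_subtype_val
  obtain ⟨t, -, ht, hcov⟩ := finite_cover_balls_of_compact hK hε
  choose g hg1 hg2 using fun z : X => exists_dual_vector'' ℝ z
  refine ⟨ht.toFinset.image g, ?_, ?_⟩
  · intro h hh
    obtain ⟨z, -, rfl⟩ := Finset.mem_image.mp hh
    exact hg1 z
  · intro z hz hρ
    have : z ∈ Subtype.val '' Metric.closedBall (0 : V) ρ :=
      ⟨⟨z, hz⟩, by simpa using hρ, rfl⟩
    obtain ⟨c, hc, hzc⟩ := mem_iUnion₂.mp (hcov this)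
    refine ⟨g c, Finset.mem_image_of_mem _ (ht.mem_toFinset.mpr hc), ?_⟩
    rw [Metric.mem_ball, dist_eq_norm] at hzc
    have h1 : ‖z‖ ≤ ‖c‖ + ‖z - c‖ := by
      have := norm_add_le c (z - c)
      simpa using this
    have h2 : g c c = ‖c‖ := by simpa using hg2 c
    have h3 : |g c (z - c)| ≤ ‖z - c‖ := by
      have := (g c).le_opNorm (z - c)
      rw [Real.norm_eq_abs] at this
      nlinarith [hg1 c, norm_nonneg (z - c)]
    rw [map_sub, abs_le] at h3
    linarith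

lemma apply_le_of_norm (φ : X →L[ℝ] ℝ) {L r : ℝ} (hL : ‖φ‖ ≤ L) {z : X} (hz : ‖z‖ ≤ r) :
    |φ z| ≤ L * r := by
  have := φ.le_opNorm z
  rw [Real.norm_eq_abs] at this
  exact this.trans (mul_le_mul hL hz (norm_nonneg _) ((norm_nonneg _).trans hL))

/-- For large `R` the constant `C` has to be large. -/
lemma IsFree.large {x0 : M} {δ : M → X} (h : IsFree x0 δ) {x : X} {ε : ℝ} (hx : ε < ‖x‖)
    (K : ℝ) : ∃ R : ℕ, ∀ C, x ∈ WW x0 δ (R + 1) C ε → K ≤ C := by
  obtain ⟨g, hg1, hg2⟩ := exists_dual_vector'' ℝ x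
  have hg2' : g x = ‖x‖ := by simpa using hg2
  obtain ⟨l, hl⟩ := h.approx x (show 0 < (‖x‖ - ε) / 2 by linarith)
  obtain ⟨B, hB⟩ : ∃ B : ℝ, ∀ p ∈ l, |g (δ p.2)| ≤ B := by
    have := ((List.finite_toSet l).image (fun p => |g (δ p.2)|)).bddAbove
    obtain ⟨B, hB⟩ := this
    exact ⟨B, fun p hp => hB ⟨p, hp, rfl⟩⟩
  set B' := |B| + 1 with hB'
  have hB0 : 0 < B' := by positivity
  obtain ⟨φ, h1, h2, h3⟩ := h.trunc g hg1 (G := fun _ => B') (fun _ => hB0.le)
    (fun a b => by simp)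
  have h4 : φ (comb δ l) = g (comb δ l) := apply_comb_congr _ _ _ (fun p hp =>
    h3 _ ((hB p hp).trans (by linarith [le_abs_self B])))
  have h5 : ε < φ x := by
    have a1 := apply_le_of_norm φ h1 (le_refl ‖x - comb δ l‖)
    have a2 := apply_le_of_norm g hg1 (le_refl ‖x - comb δ l‖)
    rw [map_sub, abs_le] at a1 a2
    linarith
  obtain ⟨R, hR⟩ := exists_nat_ge (|K| * B' / (φ x - ε))
  refine ⟨R, ?_⟩
  rintro C ⟨k, hk1, hk2⟩
  have hR0 : (0 : ℝ) < R + 1 := by positivity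
  have h6 : φ (comb δ k) ≤ wt (fun y => B' / (R + 1) * (R + 1 + dist y x0) + 0 * 0) k := by
    apply apply_comb_le
    intro y
    refine (h2 y).trans ?_
    have : B' / (R + 1) * (R + 1 + dist y x0) = B' + B' / (R + 1) * dist y x0 := by
      field_simp
    rw [this]
    have : 0 ≤ B' / (R + 1) * dist y x0 := by positivity
    linarith
  rw [wt_lin (fun y => R + 1 + dist y x0) (fun _ => 0)] at h6
  have h7 := apply_le_of_norm φ h1 hk2.le
  rw [map_sub, abs_le] at h7
  have h8 : B' / (R + 1) * wt (fun y => R + 1 + dist y x0) k ≤ B' / (R + 1) * C :=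
    mul_le_mul_of_nonneg_left hk1 (by positivity)
  have h9 : φ x - ε ≤ B' / (R + 1) * C := by linarith
  rw [div_mul_eq_mul_div, le_div_iff₀ hR0] at h9
  rw [div_le_iff₀ (by linarith)] at hR
  have h10 : |K| * B' ≤ C * B' := by nlinarith
  exact (le_abs_self K).trans (le_of_mul_le_mul_right h10 hB0)

end Pool.Agent.Lib.MP_c2fecd_an
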