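import Mathlib

open Set Filter Topology

namespace Pool.Agent.Lib.MP_c2fecd_an

variable {X : Type*} [NormedAddCommGroup X] [NormedSpace ℝ X]

/-- `Q` behaves like the square of a seminorm. -/
structure IsSq (Q : X → ℝ) : Prop where
  nonneg : ∀ x, 0 ≤ Q x
  smul : ∀ (c : ℝ) (x : X), Q (c • x) = c ^ 2 * Q x
  add : ∀ t : ℝ, 0 < t → ∀ x y, Q (x + y) ≤ (1 + t) * Q x + (1 + 1 / t) * Q y

lemma sq_add_le {t : ℝ} (ht : 0 < t) (a b : ℝ) :
    (a + b) ^ 2 ≤ (1 + t) * a ^ 2 + (1 + 1 / t) * b ^ 2 := by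
  have h : (1 + t) * a ^ 2 + (1 + 1 / t) * b ^ 2 - (a + b) ^ 2 = (t * a - b) ^ 2 / t := by
    field_simp; ring
  have h2 : 0 ≤ (t * a - b) ^ 2 / t := by positivity
  linarith

lemma isSq_seminorm (p : Seminorm ℝ X) : IsSq (fun x => p x ^ 2) where
  nonneg x := sq_nonneg _
  smul c x := by
    rw [map_smul_eq_mul, mul_pow, Real.norm_eq_abs, sq_abs]
  add t ht x y := by
    refine le_trans ?_ (sq_add_le ht (p x) (p y))
    exact pow_le_pow_left₀ (apply_nonneg _ _) (map_add_le_add p x y) 2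

lemma IsSq.sqrt_add {Q : X → ℝ} (h : IsSq Q) (x y : X) :
    √(Q (x + y)) ≤ √(Q x) + √(Q y) := by
  set a := √(Q x) with ha
  set b := √(Q y) with hb
  have ha0 : 0 ≤ a := Real.sqrt_nonneg _
  have hb0 : 0 ≤ b := Real.sqrt_nonneg _
  have ha2 : Q x = a ^ 2 := (Real.sq_sqrt (h.nonneg x)).symm
  have hb2 : Q y = b ^ 2 := (Real.sq_sqrt (h.nonneg y)).symm
  apply le_of_forall_pos_le_add
  intro e he
  have hA : 0 < a + e / 2 := by linarith
  have hB : 0 < b + e / 2 := by linarith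
  have h1 := h.add ((b + e / 2) / (a + e / 2)) (by positivity) x y
  rw [ha2, hb2] at h1
  rw [Real.sqrt_le_left (by linarith)]
  refine h1.trans ?_
  have h2 : a ^ 2 ≤ (a + e / 2) ^ 2 := pow_le_pow_left₀ ha0 (by linarith) 2
  have h3 : b ^ 2 ≤ (b + e / 2) ^ 2 := pow_le_pow_left₀ hb0 (by linarith) 2
  calc (1 + (b + e / 2) / (a + e / 2)) * a ^ 2 + (1 + 1 / ((b + e / 2) / (a + e / 2))) * b ^ 2
      ≤ (1 + (b + e / 2) / (a + e / 2)) * (a + e / 2) ^ 2 +
          (1 + 1 / ((b + e / 2) / (a + e / 2))) * (b + e / 2) ^ 2 := by gcongr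
    _ = (a + b + e) ^ 2 := by field_simp; ring

noncomputable def IsSq.toSeminorm {Q : X → ℝ} (h : IsSq Q) : Seminorm ℝ X :=
  Seminorm.of (fun x => √(Q x)) h.sqrt_add (fun c x => by
    rw [h.smul, Real.sqrt_mul (sq_nonneg c), Real.sqrt_sq_eq_abs, Real.norm_eq_abs])

lemma IsSq.toSeminorm_apply {Q : X → ℝ} (h : IsSq Q) (x : X) : h.toSeminorm x = √(Q x) := rfl

/-- The convexity defect. -/
def defect (Q : X → ℝ) (x y : X) : ℝ := 2 * Q x + 2 * Q y - Q (x + y)

lemma IsSq.defect_nonneg {Q : X → ℝ} (h : IsSq Q) (x y : X) : 0 ≤ defect Q x y := by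
  have := h.add 1 one_pos x y
  unfold defect
  linarith

/-- A countable family of bounded squares of seminorms gives one equivalent norm that
controls all the defects. -/
theorem exists_norm_of_family {J : Type*} [Countable J] (Q : J → X → ℝ) (hQ : ∀ j, IsSq (Q j))
    (hb : ∀ j, ∃ c : ℝ, ∀ x, Q j x ≤ c * ‖x‖ ^ 2) :
    ∃ N : Seminorm ℝ X, (∀ x, ‖x‖ ≤ N x ∧ N x ≤ 2 * ‖x‖) ∧
      ∀ j, ∃ w : ℝ, 0 < w ∧ ∀ x y, w * defect (Q j) x y ≤ defect (fun z => N z ^ 2) x y := by
  classical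
  obtain ⟨e, he⟩ := exists_injective_nat J
  choose c hc using hb
  let w : J → ℝ := fun j => (1 / 2) ^ (e j) / (|c j| + 1)
  have hw : ∀ j, 0 < w j := fun j => by positivity
  have hle : ∀ j x, w j * Q j x ≤ (1 / 2) ^ (e j) * ‖x‖ ^ 2 := by
    intro j x
    have h1 : Q j x ≤ (|c j| + 1) * ‖x‖ ^ 2 := by
      refine (hc j x).trans ?_
      gcongr
      linarith [le_abs_self (c j)]
    calc w j * Q j x ≤ w j * ((|c j| + 1) * ‖x‖ ^ 2) := by
          have := hw j
          gcongr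
      _ = (1 / 2) ^ (e j) * ‖x‖ ^ 2 := by
          simp only [w]; field_simp
  have hg : Summable (fun j => ((1 : ℝ) / 2) ^ (e j)) :=
    summable_geometric_two.comp_injective he
  have hg2 : ∑' j, ((1 : ℝ) / 2) ^ (e j) ≤ 2 := by
    refine le_trans ?_ tsum_geometric_two.le
    exact Summable.tsum_le_tsum_of_inj e he (fun _ _ => by positivity) (fun _ => le_rfl) hg
      summable_geometric_two
  have hs : ∀ x, Summable (fun j => w j * Q j x) := fun x =>
    Summable.of_nonneg_of_le (fun j => mul_nonneg (hw j).le ((hQ j).nonneg x)) (fun j => hle j x)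
      (hg.mul_right _)
  let T : X → ℝ := fun x => ∑' j, w j * Q j x
  have hT0 : ∀ x, 0 ≤ T x := fun x =>
    tsum_nonneg (fun j => mul_nonneg (hw j).le ((hQ j).nonneg x))
  have hT2 : ∀ x, T x ≤ 2 * ‖x‖ ^ 2 := by
    intro x
    calc T x ≤ ∑' j, (1 / 2) ^ (e j) * ‖x‖ ^ 2 :=
          (hs x).tsum_le_tsum (fun j => hle j x) (hg.mul_right _)
      _ = (∑' j, ((1 : ℝ) / 2) ^ (e j)) * ‖x‖ ^ 2 := tsum_mul_right
      _ ≤ _ := by gcongr
  have hn := isSq_seminorm (normSeminorm ℝ X)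
  simp only [coe_normSeminorm] at hn
  have hTot : IsSq (fun x : X => ‖x‖ ^ 2 + T x) := by
    refine ⟨fun x => add_nonneg (sq_nonneg _) (hT0 x), fun a x => ?_, fun t ht x y => ?_⟩
    · rw [hn.smul, mul_add]
      congr 1
      simp only [T]
      rw [← tsum_mul_left]
      congr 1
      ext j
      rw [(hQ j).smul]; ring
    · have h1 := hn.add t ht x y
      have h2 : T (x + y) ≤ (1 + t) * T x + (1 + 1 / t) * T y := by
        simp only [T]
        rw [← tsum_mul_left, ← tsum_mul_left,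
          ← Summable.tsum_add ((hs x).mul_left _) ((hs y).mul_left _)]
        refine (hs _).tsum_le_tsum (fun j => ?_) (((hs x).mul_left _).add ((hs y).mul_left _))
        have := mul_le_mul_of_nonneg_left ((hQ j).add t ht x y) (hw j).le
        linarith
      linarith
  refine ⟨hTot.toSeminorm, fun x => ⟨?_, ?_⟩, fun j => ⟨w j, hw j, fun x y => ?_⟩⟩
  · rw [IsSq.toSeminorm_apply]
    apply Real.le_sqrt_of_sq_le
    linarith [hT0 x]
  · rw [IsSq.toSeminorm_apply, Real.sqrt_le_left (by positivity)]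
    nlinarith [hT2 x, sq_nonneg ‖x‖]
  · have e1 : ∀ z, hTot.toSeminorm z ^ 2 = ‖z‖ ^ 2 + T z := fun z => by
      rw [IsSq.toSeminorm_apply, Real.sq_sqrt (hTot.nonneg z)]
    have h1 := hn.defect_nonneg x y
    have hsd : Summable (fun j => w j * defect (Q j) x y) := by
      have := (((hs x).mul_left 2).add ((hs y).mul_left 2)).sub (hs (x + y))
      refine this.congr (fun j => ?_)
      unfold defect; ring
    have h2 : w j * defect (Q j) x y ≤ ∑' j, w j * defect (Q j) x y :=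
      hsd.le_tsum j (fun i _ => mul_nonneg (hw i).le ((hQ i).defect_nonneg x y))
    have h3 : ∑' j, w j * defect (Q j) x y = 2 * T x + 2 * T y - T (x + y) := by
      simp only [T]
      rw [← tsum_mul_left, ← tsum_mul_left,
        ← Summable.tsum_add ((hs x).mul_left _) ((hs y).mul_left _),
        ← Summable.tsum_sub (((hs x).mul_left _).add ((hs y).mul_left _)) (hs _)]
      congr 1
      ext j
      unfold defect; ring
    unfold defect at h1 ⊢
    simp only [e1]
    unfold defect at h2 h3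
    linarith

end Pool.Agent.Lib.MP_c2fecd_an
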